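import Pool.Agent.X233.VM.Main2
import Pool.Agent.X233.VM.Def2
import Pool.Agent.X56.VM.TR1
import Pool.Agent.X193.VM.Tr2

/-!
# MP_79d1ba_al, Q1: `V_-` is a simple module of `SL_2` over the algebraic closure of `F_p`

`G = SL_2(K)`, `K` the algebraic closure of `ZMod p`, `M(tr)` the permutation module on `G / B`,
`St = k G η`, `e_x = ε(x) η`, `ρ_{x,y} = (e_x ⊗ e_y - e_y ⊗ e_x) / 2`, `V_-` the span of the `ρ_{x,y}`
with `x ≠ y` (the definitions are in `Pool.Agent.X233.VM.Fin` and `Pool.Agent.X233.VM.Def2`).

Proof. `V_-` is the space of alternating functions with zero row sums and finite support on pairs of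
points of the projective line. Let `v ∈ V_-`, `v(0,∞) = 1`. Take a large finite subfield `F` of `q`
elements containing the support; after a reduction the coefficients are complex. Let `N` be the space
of all alternating functions on `P^1(F)²` with zero row sums that are orthogonal to all `g v`,
`g ∈ GL_2(F)`. Averaging the orthogonality relation over the torus fixing `0, ∞` gives
`φ(g0,g∞) = ∑_l b_l (q-1)⁻¹ ∑_t φ(gt, glt)` for `φ ∈ N`; applying this twice writes `φ(g0,g∞)` as a
scalar product of `φ` with a function of norm `O(1/q)`. By Bessel's inequality an orthonormal family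
in `N` has a bounded number of elements; but if `N ≠ 0` it contains `q - 1` orthonormal functions,
eigenfunctions of the translations with different characters. So `N = 0` for large `q`, and `V_-` is
generated by `v`.
-/

namespace Pool.Agent.Results.MP_79d1ba_al.VminusSimple

open Pool.Agent.X233.VM
open scoped TensorProduct

universe u

/-- `V₀` is a simple submodule of the `k`-space `V` with the operators `act g`: it is not zero, it is
stable under all `act g`, and every stable subspace of `V₀` is zero or `V₀`. -/
def IsSimpleSub {k G V : Type*} [Field k] [AddCommMonoid V] [Module k V] (act : G → V →ₗ[k] V)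
    (V₀ : Submodule k V) : Prop :=
  V₀ ≠ ⊥ ∧ (∀ g, ∀ z ∈ V₀, act g z ∈ V₀) ∧
    ∀ W : Submodule k V, W ≤ V₀ → (∀ g, ∀ z ∈ W, act g z ∈ W) → W = ⊥ ∨ W = V₀

/-- `V_-` is a simple `k G`-module, for every prime `p` and every field `k` of characteristic zero. -/
theorem result (p : ℕ) [Fact p.Prime] (k : Type u) [Field k] [CharZero k] :
    IsSimpleSub (actSS p k) (VS p k) := by
  have h1 := (Pool.Agent.X56.VM.t_TR1 p k (main p k)).1
  have h2 := Pool.Agent.X193.VM.t_TR2 p k
  have h3 := (Pool.Agent.X56.VM.t_TR1 p k (main p k)).2
  refine ⟨?_, ?_, ?_⟩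
  · exact h1
  · intro g z hz
    exact h2 g z hz
  · intro W hW hs
    exact h3 W hW hs

end Pool.Agent.Results.MP_79d1ba_al.VminusSimple
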